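import Mathlib

open scoped ComplexOrder ComplexConjugate

namespace Pool.Agent.Results.MP_4640da_an.Exists

def PD {G : Type} [Group G] (φ : G → ℂ) : Prop :=
  ∀ (n : ℕ) (g : Fin n → G) (c : Fin n → ℂ),
    0 ≤ ∑ i, ∑ j, c i * conj (c j) * φ ((g j)⁻¹ * g i)

def InvPD (G : Type) [Group G] : Set (G → ℂ) :=
  {φ | PD φ ∧ φ 1 = 1 ∧ ∀ (α : G ≃* G) (g : G), φ (α g) = φ g}

lemma PD.fin {G : Type} [Group G] {φ : G → ℂ} (h : PD φ) {ι : Type} [Fintype ι] (g : ι → G)
    (c : ι → ℂ) : 0 ≤ ∑ i, ∑ j, c i * conj (c j) * φ ((g j)⁻¹ * g i) := by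
  have e := (Fintype.equivFin ι).symm
  have := h _ (g ∘ e) (c ∘ e)
  rw [← e.sum_comp]
  simp only [← e.sum_comp (fun j => c _ * conj (c j) * φ ((g j)⁻¹ * g _))]
  exact this

lemma lin_zero (w : ℂ) (h : ∀ x : ℝ, 0 ≤ (x : ℂ) * w + 1) : w = 0 := by
  have h1 := (Complex.nonneg_iff.1 (h 1)).2
  simp at h1
  have h2 : w.re = 0 := by
    by_contra hne
    have := (Complex.nonneg_iff.1 (h (-2 / w.re))).1
    simp only [Complex.add_re, Complex.mul_re, Complex.ofReal_re, Complex.ofReal_im, zero_mul,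
      sub_zero, Complex.one_re] at this
    rw [div_mul_cancel₀ _ hne] at this
    linarith
  exact Complex.ext h2 h1.symm

lemma coset {G : Type} [Group G] {φ : G → ℂ} (h : PD φ) (h1 : φ 1 = 1) (k g : G)
    (hk : 2 - φ k - φ k⁻¹ = 0) : φ (g * k) = φ g := by
  have key : ∀ s : ℂ, 0 ≤ s * (φ g - φ (g * k)) + conj s * (φ g⁻¹ - φ (k⁻¹ * g⁻¹)) + 1 := by
    intro s
    have := h 3 ![1, k, g⁻¹] ![s, -s, 1]
    simp only [Fin.sum_univ_three, Matrix.cons_val_zero, Matrix.cons_val_one, Matrix.cons_val,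
      inv_one, one_mul, mul_one, inv_mul_cancel, inv_inv, h1, map_neg, map_one,
      mul_inv_cancel] at this
    convert this using 1
    linear_combination (-(s * conj s)) * hk
  have a1 := lin_zero ((φ g - φ (g * k)) + (φ g⁻¹ - φ (k⁻¹ * g⁻¹))) fun x => by
    have := key x
    rw [Complex.conj_ofReal] at this
    convert this using 1
    ring
  have a2 := lin_zero (Complex.I * ((φ g - φ (g * k)) - (φ g⁻¹ - φ (k⁻¹ * g⁻¹)))) fun x => by
    have := key (x * Complex.I)
    rw [map_mul, Complex.conj_ofReal, Complex.conj_I] at this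
    convert this using 1
    ring
  have a3 := (mul_eq_zero.1 a2).resolve_left Complex.I_ne_zero
  linear_combination (-1 / 2 : ℂ) * a1 + (-1 / 2 : ℂ) * a3

lemma comb_zero {a b : ℝ} (ha : 0 < a) (hb : 0 < b) {u v : ℂ} (hu : 0 ≤ u) (hv : 0 ≤ v)
    (h : a * u + b * v = 0) : u = 0 := by
  have h1 : (0 : ℂ) ≤ a * u := mul_nonneg (by exact_mod_cast ha.le) hu
  have h2 : (0 : ℂ) ≤ b * v := mul_nonneg (by exact_mod_cast hb.le) hv
  have := (add_eq_zero_iff_of_nonneg h1 h2).1 h
  exact (mul_eq_zero.1 this.1).resolve_left (by exact_mod_cast ha.ne')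

section Gen
variable {G V : Type} [Group G] [Group V] [Fintype V] [DecidableEq V] (π : G →* V)

noncomputable def tau (g : G) : ℂ := if π g = 1 then 1 else -1 / ((Fintype.card V : ℂ) - 1)

lemma tau_pd (hV : 1 < Fintype.card V) : PD (tau π) := by
  intro n g c
  obtain ⟨N, hN⟩ : ∃ N : ℝ, N = Fintype.card V := ⟨_, rfl⟩
  have hN1 : 1 < N := by rw [hN]; exact_mod_cast hV
  have hNc : (Fintype.card V : ℂ) = (N : ℂ) := by rw [hN]; norm_cast
  have hne : (N : ℂ) - 1 ≠ 0 := by exact_mod_cast (sub_pos.2 hN1).ne'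
  obtain ⟨s, hs⟩ : ∃ s : V → ℂ, s = fun v => ∑ i, if π (g i) = v then c i else 0 := ⟨_, rfl⟩
  have e1 : ∑ v, s v = ∑ i, c i := by
    rw [hs, Finset.sum_comm]
    simp
  have e2 : ∑ v, s v * conj (s v) =
      ∑ i, ∑ j, c i * conj (c j) * (if π (g i) = π (g j) then 1 else 0) := by
    simp only [hs, map_sum, Finset.sum_mul_sum]
    rw [Finset.sum_comm]
    refine Finset.sum_congr rfl fun i _ => ?_
    rw [Finset.sum_comm]
    refine Finset.sum_congr rfl fun j _ => ?_
    rw [Finset.sum_eq_single (π (g i)) (fun v _ hv => by rw [if_neg hv.symm, zero_mul])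
      (by simp)]
    by_cases hij : π (g i) = π (g j)
    · simp [hij]
    · simp [hij, Ne.symm hij]
  have e3 : ∀ i j, tau π ((g j)⁻¹ * g i) =
      N / (N - 1) * (if π (g i) = π (g j) then 1 else 0) - 1 / (N - 1) := by
    intro i j
    unfold tau
    rw [map_mul, map_inv, hNc]
    simp only [inv_mul_eq_one]
    by_cases hij : π (g i) = π (g j)
    · rw [if_pos hij, if_pos hij.symm]
      field_simp
    · rw [if_neg hij, if_neg (Ne.symm hij)]
      ring
  have e4 : ∑ i, ∑ j, c i * conj (c j) * tau π ((g j)⁻¹ * g i) =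
      ((N / (N - 1) * ∑ v, ‖s v‖ ^ 2 - 1 / (N - 1) * ‖∑ v, s v‖ ^ 2 : ℝ) : ℂ) := by
    push_cast
    simp only [← Complex.mul_conj']
    rw [e2, e1, map_sum, Finset.sum_mul_sum]
    simp only [e3, Finset.mul_sum, ← Finset.sum_sub_distrib]
    refine Finset.sum_congr rfl fun i _ => Finset.sum_congr rfl fun j _ => by ring
  rw [e4]
  have cs : ‖∑ v, s v‖ ^ 2 ≤ N * ∑ v, ‖s v‖ ^ 2 := by
    have := sq_sum_le_card_mul_sum_sq (s := Finset.univ) (f := fun v => ‖s v‖)
    rw [Finset.card_univ, ← hN] at this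
    exact (pow_le_pow_left₀ (norm_nonneg _) (norm_sum_le _ _) 2).trans this
  have hp : 0 < N - 1 := sub_pos.2 hN1
  have : 0 ≤ N / (N - 1) * ∑ v, ‖s v‖ ^ 2 - 1 / (N - 1) * ‖∑ v, s v‖ ^ 2 := by
    rw [div_mul_eq_mul_div, div_mul_eq_mul_div, ← sub_div]
    exact div_nonneg (by linarith) hp.le
  exact_mod_cast this

lemma lower (hs : Function.Surjective π) {φ : G → ℂ} (h : PD φ) (c : ℂ)
    (hφ : ∀ g, φ g = if π g = 1 then 1 else c) :
    0 ≤ (Fintype.card V : ℂ) * (1 + (Fintype.card V - 1) * c) := by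
  obtain ⟨σ, hσ⟩ := hs.hasRightInverse
  have := h.fin σ (fun _ => 1)
  have e : ∀ v, ∑ w, (1 : ℂ) * conj 1 * φ ((σ w)⁻¹ * σ v) = 1 + (Fintype.card V - 1) * c := by
    intro v
    have : ∀ w, (1 : ℂ) * conj 1 * φ ((σ w)⁻¹ * σ v) = c + if w = v then 1 - c else 0 := by
      intro w
      rw [hφ, map_mul, map_inv, hσ, hσ]
      simp only [inv_mul_eq_one]
      split_ifs <;> simp
    simp only [this, Finset.sum_add_distrib, Finset.sum_const, Finset.card_univ, nsmul_eq_mul,
      Finset.sum_ite_eq', Finset.mem_univ, if_true]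
    ring
  simpa only [e, Finset.sum_const, Finset.card_univ, nsmul_eq_mul] using this

lemma extreme (hV : 1 < Fintype.card V) (hs : Function.Surjective π) (x : G) (hx : π x ≠ 1)
    (hc : ∀ (α : G ≃* G) (g : G), π g = 1 → π (α g) = 1)
    (ht : ∀ g, π g ≠ 1 → ∃ α : G ≃* G, π (α x) = π g) :
    tau π ∈ (InvPD G).extremePoints ℝ := by
  have hne : (Fintype.card V : ℂ) - 1 ≠ 0 := by
    rw [sub_ne_zero]
    exact_mod_cast hV.ne'
  have hN0 : (Fintype.card V : ℂ) ≠ 0 := by exact_mod_cast (by omega : Fintype.card V ≠ 0)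
  have two : ∀ φ ∈ InvPD G, ∀ k, 0 ≤ 2 - φ k - φ k⁻¹ := by
    intro φ hφ k
    have := hφ.1 2 ![1, k] ![1, -1]
    simp only [Fin.sum_univ_two, Matrix.cons_val_zero, Matrix.cons_val_one, inv_one, one_mul,
      mul_one, inv_mul_cancel, hφ.2.1, map_neg, map_one] at this
    convert this using 1
    ring
  have shape : ∀ φ ∈ InvPD G, (∀ k, π k = 1 → 2 - φ k - φ k⁻¹ = 0) →
      ∀ g, φ g = if π g = 1 then 1 else φ x := by
    intro φ hφ hk g
    have hco : ∀ g g', π g = π g' → φ g = φ g' := fun g g' e => by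
      have := coset hφ.1 hφ.2.1 (g⁻¹ * g') g (hk _ (by simp [e]))
      rw [mul_inv_cancel_left] at this
      exact this.symm
    split_ifs with hg
    · rw [hco g 1 (by simp [hg]), hφ.2.1]
    · obtain ⟨α, hα⟩ := ht g hg
      rw [← hco _ _ hα, hφ.2.2]
  rw [mem_extremePoints_iff_left]
  refine ⟨⟨tau_pd π hV, by simp [tau], fun α g => ?_⟩, ?_⟩
  · have : π (α g) = 1 ↔ π g = 1 := ⟨fun h => by simpa using hc α.symm _ h, hc α g⟩
    simp only [tau, this]
  · rintro φ hφ ψ hψ ⟨a, b, ha, hb, hab, e⟩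
    have ev : ∀ g, (a : ℂ) * φ g + b * ψ g = tau π g := fun g => by
      simpa using congrFun e g
    have habc : (a : ℂ) + b = 1 := by exact_mod_cast hab
    have z : ∀ k, π k = 1 → (a : ℂ) * (2 - φ k - φ k⁻¹) + b * (2 - ψ k - ψ k⁻¹) = 0 := by
      intro k hk
      have e1 := ev k
      have e2 := ev k⁻¹
      rw [tau, if_pos hk] at e1
      rw [tau, if_pos (by simp [hk])] at e2
      linear_combination 2 * habc - e1 - e2
    have s1 := shape φ hφ fun k hk => comb_zero ha hb (two φ hφ k) (two ψ hψ k) (z k hk)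
    have s2 := shape ψ hψ fun k hk => comb_zero hb ha (two ψ hψ k) (two φ hφ k)
      (by rw [add_comm]; exact z k hk)
    have l1 := lower π hs hφ.1 _ s1
    have l2 := lower π hs hψ.1 _ s2
    have ex := ev x
    rw [tau, if_neg hx, eq_div_iff hne] at ex
    have z1 := comb_zero ha hb l1 l2 (by
      linear_combination (Fintype.card V : ℂ) * habc + (Fintype.card V : ℂ) * ex)
    have z2 := (mul_eq_zero.1 z1).resolve_left hN0
    funext g
    rw [s1 g, tau]
    congr 1
    rw [eq_div_iff hne]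
    linear_combination z2

end Gen

abbrev W (r : ℕ) := Multiplicative (Fin r → ZMod 2)

def pr (r : ℕ) : FreeGroup (Fin r) →* W r :=
  FreeGroup.lift fun j => Multiplicative.ofAdd (Pi.single j 1)

lemma pr_of {r : ℕ} (j : Fin r) : pr r (FreeGroup.of j) = Multiplicative.ofAdd (Pi.single j 1) := by
  simp [pr]

lemma pr_char {r : ℕ} (α : FreeGroup (Fin r) ≃* FreeGroup (Fin r)) (g : FreeGroup (Fin r))
    (hg : pr r g = 1) : pr r (α g) = 1 := by
  obtain ⟨L, hL⟩ : ∃ L : (Fin r → ZMod 2) →ₗ[ZMod 2] (Fin r → ZMod 2),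
      ∀ j, L (Pi.single j 1) = (pr r (α (FreeGroup.of j))).toAdd :=
    ⟨(Pi.basisFun (ZMod 2) (Fin r)).constr (ZMod 2) fun j => (pr r (α (FreeGroup.of j))).toAdd,
      fun j => by rw [← Pi.basisFun_apply, Module.Basis.constr_basis]⟩
  have : (pr r).comp α.toMonoidHom =
      (AddMonoidHom.toMultiplicative L.toAddMonoidHom).comp (pr r) := by
    refine FreeGroup.ext_hom _ _ fun j => ?_
    simp [pr_of, hL]
  have h2 := DFunLike.congr_fun this g
  simpa [hg] using h2

def niel {r : ℕ} (i : Fin r) (u : FreeGroup (Fin r)) : FreeGroup (Fin r) →* FreeGroup (Fin r) :=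
  FreeGroup.lift fun j => if j = i then FreeGroup.of j * u else FreeGroup.of j

lemma niel_fix {r : ℕ} (i : Fin r) (u : FreeGroup (Fin r)) (l : List (Fin r)) (hl : i ∉ l) :
    niel i u (l.map FreeGroup.of).prod = (l.map FreeGroup.of).prod := by
  rw [map_list_prod, List.map_map]
  congr 1
  refine List.map_congr_left fun j hj => ?_
  have : j ≠ i := fun e => hl (e ▸ hj)
  simp [niel, this]

lemma pr_list {r : ℕ} (s : Finset (Fin r)) :
    pr r (s.toList.map FreeGroup.of).prod = Multiplicative.ofAdd (∑ j ∈ s, Pi.single j 1) := by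
  rw [map_list_prod, List.map_map, Finset.prod_map_toList, ofAdd_sum]
  simp [pr_of]

lemma pr_trans {r : ℕ} (i₀ : Fin r) (v : W r) (hv : v ≠ 1) :
    ∃ α : FreeGroup (Fin r) ≃* FreeGroup (Fin r), pr r (α (FreeGroup.of i₀)) = v := by
  have z2 : ∀ a : ZMod 2, a = 0 ∨ a = 1 := by decide
  obtain ⟨i, hi⟩ : ∃ i, v.toAdd i = 1 := by
    by_contra hn
    push Not at hn
    exact hv (Multiplicative.toAdd.injective (funext fun j => (z2 _).resolve_right (hn j)))
  obtain ⟨s, hs⟩ : ∃ s : Finset (Fin r), s = Finset.univ.filter fun j => j ≠ i ∧ v.toAdd j = 1 :=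
    ⟨_, rfl⟩
  have hl : i ∉ s.toList := by simp [hs]
  obtain ⟨u, hu⟩ : ∃ u, u = (s.toList.map FreeGroup.of).prod := ⟨_, rfl⟩
  have f1 : ∀ w, niel i w u = u := fun w => by rw [hu]; exact niel_fix i w _ hl
  refine ⟨(FreeGroup.freeGroupCongr (Equiv.swap i₀ i)).trans
    (MonoidHom.toMulEquiv (niel i u) (niel i u⁻¹) ?_ ?_), ?_⟩
  · refine FreeGroup.ext_hom _ _ fun j => ?_
    by_cases hj : j = i
    · have := f1 u⁻¹
      simp only [niel] at this
      simp [niel, hj, this]
    · simp [niel, hj]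
  · refine FreeGroup.ext_hom _ _ fun j => ?_
    by_cases hj : j = i
    · have := f1 u
      simp only [niel] at this
      simp [niel, hj, this]
    · simp [niel, hj]
  · have : pr r (niel i u (FreeGroup.of i)) = v := by
      simp only [niel, FreeGroup.lift_apply_of, if_true, map_mul, pr_of]
      rw [hu, pr_list, ← ofAdd_add]
      refine Multiplicative.toAdd.injective (funext fun j => ?_)
      simp only [toAdd_ofAdd, Pi.add_apply, Finset.sum_apply, Pi.single_apply,
        Finset.sum_ite_eq, hs, Finset.mem_filter, Finset.mem_univ, true_and]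
      by_cases hj : j = i
      · simp [hj, hi]
      · rcases z2 (v.toAdd j) with h | h <;> simp [hj, h]
    simpa using this

theorem result (r : ℕ) (hr : 2 ≤ r) :
    ∃ τ ∈ (InvPD (FreeGroup (Fin r))).extremePoints ℝ,
      τ ≠ (fun _ => 1) ∧ τ (FreeGroup.of ⟨0, by omega⟩) ≠ 0 := by
  have hx : pr r (FreeGroup.of ⟨0, by omega⟩) ≠ 1 := by
    rw [pr_of]
    intro h
    have := congrFun (congrArg Multiplicative.toAdd h) ⟨0, by omega⟩
    simp at this
  have hV : 1 < Fintype.card (W r) := Fintype.one_lt_card_iff.2 ⟨_, _, hx⟩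
  have hs : Function.Surjective (pr r) := fun v => by
    by_cases hv : v = 1
    · exact ⟨1, by simp [hv]⟩
    · obtain ⟨α, hα⟩ := pr_trans ⟨0, by omega⟩ v hv
      exact ⟨_, hα⟩
  have hpos : (0 : ℝ) < (Fintype.card (W r) : ℝ) - 1 := by
    rw [sub_pos]
    exact_mod_cast hV
  have hval : tau (pr r) (FreeGroup.of ⟨0, by omega⟩) =
      ((-1 / ((Fintype.card (W r) : ℝ) - 1) : ℝ) : ℂ) := by
    rw [tau, if_neg hx]
    push_cast
    rfl
  have hneg : -1 / ((Fintype.card (W r) : ℝ) - 1) < 0 := div_neg_of_neg_of_pos (by norm_num) hpos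
  refine ⟨tau (pr r), extreme (pr r) hV hs _ hx pr_char fun g hg => pr_trans _ _ hg,
    fun h => ?_, fun h => ?_⟩
  · have h1 := congrFun h (FreeGroup.of ⟨0, by omega⟩)
    rw [hval] at h1
    have : -1 / ((Fintype.card (W r) : ℝ) - 1) = 1 := by exact_mod_cast h1
    linarith
  · rw [hval] at h
    have : -1 / ((Fintype.card (W r) : ℝ) - 1) = 0 := by exact_mod_cast h
    linarith

end Pool.Agent.Results.MP_4640da_an.Exists
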